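import Pool.Agent.H978R3.SL.Main

/-!
A transcendental meromorphic function that has two distinct finite shared limit values with its
derivative shares all limit values with it.

Idea. Normal family arguments along ultrafilters reduce the question to the classification of the
meromorphic functions `G` on `ℂ` for which `a`, `b` are uniformly shared by `G` and `G'`: these are
`G' = G` or constants. If `a, b ≠ 0` this follows from Liouville's theorem for
`(G' - G)/((G-a)(G-b))` and a Riccati equation; if `a = 0`, one lifts `exp` through `G` to an entire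
`Ψ` with `G ∘ Ψ = exp` and shows by Harnack type estimates that `Ψ''/Ψ'` is constant. Then
limit functions of `f(z + ·)` along a vertical chain of near-`b` points are exponentials, and a
Phragmen-Lindelof argument in the plane slit along the chain excludes constant limit functions and
the possibility that `f → ∞` while `f'` stays bounded.
-/

open Set Filter Topology Bornology

namespace Pool.Agent.Results.MP_35e7b7_an.SharedLimits

/-- The value in `ℂ ∪ {∞}` at `z` of a meromorphic function `f` in normal form: `∞` at the poles and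
`f z` at all other points. -/
noncomputable def sphVal (f : ℂ → ℂ) (z : ℂ) : OnePoint ℂ :=
  open Classical in if meromorphicOrderAt f z < 0 then OnePoint.infty else ((f z : ℂ) : OnePoint ℂ)

/-- `a ∈ ℂ ∪ {∞}` is a shared limit value of `f` and `g`: for every sequence `z n → ∞` in `ℂ`,
`f (z n) → a` if and only if `g (z n) → a` (convergence in the sphere `OnePoint ℂ`). -/
def SharedLimitValue (f g : ℂ → ℂ) (a : OnePoint ℂ) : Prop :=
  ∀ z : ℕ → ℂ, Tendsto z atTop (cobounded ℂ) →
    (Tendsto (fun n => sphVal f (z n)) atTop (𝓝 a) ↔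
      Tendsto (fun n => sphVal g (z n)) atTop (𝓝 a))

/-- `f` is a rational function. -/
def IsRational (f : ℂ → ℂ) : Prop :=
  ∃ P Q : Polynomial ℂ, Q ≠ 0 ∧ ∀ z, Q.eval z ≠ 0 → f z = P.eval z / Q.eval z

open Pool.Agent.H978R3.SL

theorem sphVal_analytic {f : ℂ → ℂ} {z : ℂ} (h : AnalyticAt ℂ f z) : sphVal f z = (f z : ℂ) := by
  unfold sphVal
  rw [if_neg (not_lt.2 h.meromorphicOrderAt_nonneg)]

theorem mf_of_nf {f : ℂ → ℂ} (hf : MeromorphicNFOn f univ) : MF f := by
  intro z
  have h := hf (mem_univ z)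
  by_cases h0 : 0 ≤ meromorphicOrderAt f z
  · exact Or.inl (h.meromorphicOrderAt_nonneg_iff_analyticAt.1 h0)
  · push Not at h0
    exact Or.inr ⟨h.meromorphicAt,
      (tendsto_cobounded_iff_meromorphicOrderAt_neg h.meromorphicAt).2 h0⟩

theorem pole_order {f : ℂ → ℂ} {z : ℂ} (h : Pole f z) :
    meromorphicOrderAt f z < 0 ∧ meromorphicOrderAt (deriv f) z < 0 :=
  ⟨(tendsto_cobounded_iff_meromorphicOrderAt_neg h.1).1 h.2,
    (tendsto_cobounded_iff_meromorphicOrderAt_neg h.1.deriv).1 h.deriv⟩

theorem hf_of_shared {f : ℂ → ℂ} {c : ℂ} (h : SharedLimitValue f (deriv f) (c : ℂ)) : HF f c := by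
  have hemb := (OnePoint.isOpenEmbedding_coe (X := ℂ)).isEmbedding
  have hseq : ∀ z : ℕ → ℂ, (∀ n : ℕ, (n : ℝ) ≤ ‖z n‖ ∧ AnalyticAt ℂ f (z n)) →
      (Tendsto (fun n => f (z n)) atTop (𝓝 c) ↔ Tendsto (fun n => deriv f (z n)) atTop (𝓝 c)) := by
    intro z hz
    have h1 : Tendsto z atTop (cobounded ℂ) := by
      rw [← tendsto_norm_atTop_iff_cobounded]
      exact tendsto_atTop_mono (fun n => (hz n).1) tendsto_natCast_atTop_atTop
    have h2 := h z h1
    have e1 : (fun n => sphVal f (z n)) = (fun w : ℂ => (w : OnePoint ℂ)) ∘ fun n => f (z n) :=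
      funext fun n => sphVal_analytic (hz n).2
    have e2 : (fun n => sphVal (deriv f) (z n)) =
        (fun w : ℂ => (w : OnePoint ℂ)) ∘ fun n => deriv f (z n) :=
      funext fun n => sphVal_analytic (hz n).2.deriv
    rw [e1, e2, ← hemb.tendsto_nhds_iff, ← hemb.tendsto_nhds_iff] at h2
    exact h2
  have hlim : ∀ u : ℕ → ℂ, (∀ n : ℕ, ‖u n - c‖ < 1 / ((n:ℝ) + 1)) → Tendsto u atTop (𝓝 c) := by
    intro u hu
    rw [tendsto_iff_norm_sub_tendsto_zero]
    exact squeeze_zero (fun n => norm_nonneg _) (fun n => (hu n).le)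
      tendsto_one_div_add_atTop_nhds_zero_nat
  have hnlim : ∀ u : ℕ → ℂ, ∀ ε > 0, (∀ n : ℕ, ε < ‖u n - c‖) → ¬ Tendsto u atTop (𝓝 c) := by
    intro u ε hε hu ht
    rw [tendsto_iff_norm_sub_tendsto_zero] at ht
    obtain ⟨n, hn⟩ := (ht.eventually_lt_const hε).exists
    exact absurd (hu n) (not_lt.2 hn.le)
  intro ε hε
  obtain ⟨δ1, hδ1, R1, hR1⟩ : ∃ δ > 0, ∃ R : ℝ, ∀ z, R ≤ ‖z‖ → AnalyticAt ℂ f z →
      (‖f z - c‖ < δ → ‖deriv f z - c‖ ≤ ε) := by
    by_contra hcon
    push Not at hcon
    choose z hz1 hz2 hz3 hz4 using fun n : ℕ => hcon (1 / ((n:ℝ) + 1)) (by positivity) n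
    exact hnlim _ ε hε hz4 ((hseq z (fun n => ⟨hz1 n, hz2 n⟩)).1 (hlim _ hz3))
  obtain ⟨δ2, hδ2, R2, hR2⟩ : ∃ δ > 0, ∃ R : ℝ, ∀ z, R ≤ ‖z‖ → AnalyticAt ℂ f z →
      (‖deriv f z - c‖ < δ → ‖f z - c‖ ≤ ε) := by
    by_contra hcon
    push Not at hcon
    choose z hz1 hz2 hz3 hz4 using fun n : ℕ => hcon (1 / ((n:ℝ) + 1)) (by positivity) n
    exact hnlim _ ε hε hz4 ((hseq z (fun n => ⟨hz1 n, hz2 n⟩)).2 (hlim _ hz3))
  refine ⟨min δ1 δ2, lt_min hδ1 hδ2, max R1 R2, fun z hz hA => ⟨fun h => ?_, fun h => ?_⟩⟩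
  · exact hR1 z ((le_max_left _ _).trans hz) hA (lt_of_lt_of_le h (min_le_left _ _))
  · exact hR2 z ((le_max_right _ _).trans hz) hA (lt_of_lt_of_le h (min_le_right _ _))

theorem tendsto_infty_iff {g : ℂ → ℂ} {z : ℕ → ℂ} :
    Tendsto (fun n => sphVal g (z n)) atTop (𝓝 OnePoint.infty) ↔
      ∀ K : ℝ, ∀ᶠ n in atTop, meromorphicOrderAt g (z n) < 0 ∨ K < ‖g (z n)‖ := by
  rw [(OnePoint.hasBasis_nhds_infty (X := ℂ)).tendsto_right_iff]
  constructor
  · intro h K
    filter_upwards [h (Metric.closedBall 0 K) ⟨Metric.isClosed_closedBall,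
      isCompact_closedBall _ _⟩] with n hn
    by_cases h0 : meromorphicOrderAt g (z n) < 0
    · exact Or.inl h0
    · right
      simp only [sphVal, if_neg h0] at hn
      rcases hn with ⟨w, hw1, hw2⟩ | hn
      · have : w = g (z n) := by exact_mod_cast hw2
        rw [this] at hw1
        by_contra h1
        push Not at h1
        exact hw1 (mem_closedBall_zero_iff.2 h1)
      · exact absurd hn (OnePoint.coe_ne_infty _)
  · rintro h s ⟨-, hs⟩
    obtain ⟨K, hK⟩ := hs.isBounded.exists_norm_le
    filter_upwards [h K] with n hn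
    by_cases h0 : meromorphicOrderAt g (z n) < 0
    · right
      simp [sphVal, if_pos h0]
    · left
      refine ⟨g (z n), ?_, by simp [sphVal, if_neg h0]⟩
      intro h1
      have := hK _ h1
      rcases hn with hn | hn
      · exact h0 hn
      · linarith

theorem tendsto_coe_iff {g : ℂ → ℂ} {z : ℕ → ℂ} {c : ℂ} :
    Tendsto (fun n => sphVal g (z n)) atTop (𝓝 (c : OnePoint ℂ)) ↔
      (∀ᶠ n in atTop, ¬ meromorphicOrderAt g (z n) < 0) ∧
        Tendsto (fun n => g (z n)) atTop (𝓝 c) := by
  have hemb := (OnePoint.isOpenEmbedding_coe (X := ℂ)).isEmbedding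
  constructor
  · intro h
    have h1 : ∀ᶠ n in atTop, ¬ meromorphicOrderAt g (z n) < 0 := by
      filter_upwards [h.eventually_ne (OnePoint.coe_ne_infty c)] with n hn h0
      exact hn (by simp [sphVal, if_pos h0])
    refine ⟨h1, ?_⟩
    rw [hemb.tendsto_nhds_iff]
    apply h.congr'
    filter_upwards [h1] with n hn
    simp [sphVal, if_neg hn]
  · rintro ⟨h1, h2⟩
    rw [hemb.tendsto_nhds_iff] at h2
    apply h2.congr'
    filter_upwards [h1] with n hn
    simp [sphVal, if_neg hn]

/-- **Two finite shared limit values imply that all limit values are shared.**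
If `f` is a transcendental (non-rational) meromorphic function on `ℂ` (in normal form) and two
distinct finite values are shared limit values of `f` and `f'`, then every value in `ℂ ∪ {∞}` is a
shared limit value of `f` and `f'`. -/
theorem result : ∀ f : ℂ → ℂ, MeromorphicNFOn f univ → ¬ IsRational f → ∀ a b : ℂ, a ≠ b →
    SharedLimitValue f (deriv f) (a : ℂ) → SharedLimitValue f (deriv f) (b : ℂ) →
    ∀ c : OnePoint ℂ, SharedLimitValue f (deriv f) c := by
  intro f hnf htr a b hab ha hb c
  have hf := mf_of_nf hnf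
  obtain ⟨A1, A2⟩ := main1 hf (hf_of_shared ha) (hf_of_shared hb) hab htr
  intro z hz
  have hzR : ∀ R : ℝ, ∀ᶠ n in atTop, R ≤ ‖z n‖ := by
    intro R
    exact (tendsto_norm_cobounded_atTop.comp hz).eventually_ge_atTop R
  have hdich : ∀ w, AnalyticAt ℂ f w ∨ (meromorphicOrderAt f w < 0 ∧
      meromorphicOrderAt (deriv f) w < 0) := by
    intro w
    rcases hf w with h | h
    · exact Or.inl h
    · exact Or.inr (pole_order h)
  have hA0 : ∀ w, AnalyticAt ℂ f w → ¬ meromorphicOrderAt f w < 0 ∧
      ¬ meromorphicOrderAt (deriv f) w < 0 := fun w h =>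
    ⟨not_lt.2 h.meromorphicOrderAt_nonneg, not_lt.2 h.deriv.meromorphicOrderAt_nonneg⟩
  induction c using OnePoint.rec with
  | infty =>
    rw [tendsto_infty_iff, tendsto_infty_iff]
    constructor
    · intro h K
      obtain ⟨K2, R, hR⟩ := A2 K
      filter_upwards [h K2, hzR R] with n hn hnR
      rcases hdich (z n) with hA | hP
      · right
        rcases hn with hn | hn
        · exact absurd hn (hA0 _ hA).1
        · by_contra h1
          push Not at h1
          exact absurd (hR _ hnR hA h1) (not_le.2 hn)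
      · exact Or.inl hP.2
    · intro h K
      obtain ⟨R, hR⟩ := A1 K 1 one_pos
      filter_upwards [h (K + 1), hzR R] with n hn hnR
      rcases hdich (z n) with hA | hP
      · right
        rcases hn with hn | hn
        · exact absurd hn (hA0 _ hA).2
        · by_contra h1
          push Not at h1
          have h2 := hR _ hnR hA h1
          have : ‖deriv f (z n)‖ ≤ ‖deriv f (z n) - f (z n)‖ + ‖f (z n)‖ := by
            calc ‖deriv f (z n)‖ = ‖(deriv f (z n) - f (z n)) + f (z n)‖ := by congr 1; ring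
              _ ≤ _ := norm_add_le _ _
          linarith
      · exact Or.inl hP.1
  | coe c =>
    rw [tendsto_coe_iff, tendsto_coe_iff]
    have hdiff : ∀ K : ℝ, (∀ᶠ n in atTop, AnalyticAt ℂ f (z n) ∧ ‖f (z n)‖ ≤ K) →
        Tendsto (fun n => deriv f (z n) - f (z n)) atTop (𝓝 0) := by
      intro K h
      rw [Metric.tendsto_nhds]
      intro ε hε
      obtain ⟨R, hR⟩ := A1 K ε hε
      filter_upwards [h, hzR R] with n hn hnR
      rw [dist_zero_right]
      exact hR _ hnR hn.1 hn.2
    constructor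
    · rintro ⟨h1, h2⟩
      have hA : ∀ᶠ n in atTop, AnalyticAt ℂ f (z n) := by
        filter_upwards [h1] with n hn
        rcases hdich (z n) with h | h
        · exact h
        · exact absurd h.1 hn
      refine ⟨by filter_upwards [hA] with n hn using (hA0 _ hn).2, ?_⟩
      have h3 := hdiff (‖c‖ + 1) (by
        filter_upwards [hA, h2.norm.eventually_lt_const (show ‖c‖ < ‖c‖ + 1 by linarith)]
          with n hn hn2
        exact ⟨hn, hn2.le⟩)
      have h4 := h3.add h2
      simpa using h4
    · rintro ⟨h1, h2⟩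
      have hA : ∀ᶠ n in atTop, AnalyticAt ℂ f (z n) := by
        filter_upwards [h1] with n hn
        rcases hdich (z n) with h | h
        · exact h
        · exact absurd h.2 hn
      refine ⟨by filter_upwards [hA] with n hn using (hA0 _ hn).1, ?_⟩
      obtain ⟨K, R, hR⟩ := A2 (‖c‖ + 1)
      have h3 := hdiff K (by
        filter_upwards [hA, hzR R, h2.norm.eventually_lt_const (show ‖c‖ < ‖c‖ + 1 by linarith)]
          with n hn hnR hn2
        exact ⟨hn, hR _ hnR hn hn2.le⟩)
      have h4 := h2.sub h3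
      simpa using h4

end Pool.Agent.Results.MP_35e7b7_an.SharedLimits
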